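import Mathlib

/-!
# Uniform property (S): definitions
-/

set_option autoImplicit false

namespace Q195.PropS

open scoped ENNReal

variable (X : Type*) [NormedAddCommGroup X]

variable {X} in
/-- `U_X(x, y; a)`: the supremum of `| ‖x + z‖ - ‖y + z‖ |` over `‖z‖ ≤ a`. -/
noncomputable def U (x y : X) (a : ℝ) : ℝ≥0∞ :=
  ⨆ z : X, ⨆ _ : ‖z‖ ≤ a, ENNReal.ofReal |‖x + z‖ - ‖y + z‖|

/-- The modulus `U_X(d; a)`: the infimum of `U_X(x, y; a)` over the unit vectors `x`, `y` with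
`‖x - y‖ ≥ d`. -/
noncomputable def modulus (d a : ℝ) : ℝ≥0∞ :=
  ⨅ x : X, ⨅ y : X, ⨅ _ : ‖x‖ = 1 ∧ ‖y‖ = 1 ∧ d ≤ ‖x - y‖, U x y a

/-- Uniform property (S): `U_X(d; a) > 0` for all `0 < d < 2` and all `a > 0`. -/
def UniformS : Prop := ∀ d a : ℝ, 0 < d → d < 2 → 0 < a → 0 < modulus X d a

end Q195.PropS
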