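import Mathlib
import Pool.Agent.Q195.PropS.Defs

/-!
# Atoms in the bidual of `L_1`
-/

set_option autoImplicit false
set_option linter.unusedSectionVars false

open MeasureTheory Set Filter Topology
open scoped ENNReal

namespace Q195.PropS

variable {Ω : Type*} [MeasurableSpace Ω]

/-- `h` is measurable and bounded by `C` -/
def Bd (h : Ω → ℝ) (C : ℝ) : Prop := Measurable h ∧ ∀ x, |h x| ≤ C

variable (μ : Measure Ω)

theorem Bd.integrable_mul {h : Ω → ℝ} {C : ℝ} (hh : Bd h C) (f : Lp ℝ 1 μ) :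
    Integrable (fun x => h x * f x) μ :=
  (L1.integrable_coeFn f).bdd_mul hh.1.aestronglyMeasurable
    (Eventually.of_forall fun x => by rw [Real.norm_eq_abs]; exact hh.2 x)

/-- the functional `f ↦ ∫ h f` on `L_1` -/
noncomputable def Lam (h : Ω → ℝ) {C : ℝ} (hh : Bd h C) : StrongDual ℝ (Lp ℝ 1 μ) :=
  LinearMap.mkContinuous
    { toFun := fun f => ∫ x, h x * f x ∂μ
      map_add' := by
        intro f g
        rw [← integral_add (hh.integrable_mul μ f) (hh.integrable_mul μ g)]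
        apply integral_congr_ae
        filter_upwards [Lp.coeFn_add f g] with x hx
        rw [hx]
        simp [mul_add]
      map_smul' := by
        intro c f
        simp only [RingHom.id_apply, smul_eq_mul]
        rw [← integral_const_mul]
        apply integral_congr_ae
        filter_upwards [Lp.coeFn_smul c f] with x hx
        rw [hx]
        simp only [Pi.smul_apply, smul_eq_mul]
        ring } C
    (by
      intro f
      simp only [LinearMap.coe_mk, AddHom.coe_mk]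
      rw [L1.norm_eq_integral_norm, ← integral_const_mul]
      refine (norm_integral_le_integral_norm _).trans ?_
      refine integral_mono (hh.integrable_mul μ f).norm ((L1.integrable_coeFn f).norm.const_mul C)
        fun x => ?_
      simp only [norm_mul]
      exact mul_le_mul_of_nonneg_right (by rw [Real.norm_eq_abs]; exact hh.2 x) (norm_nonneg _))

theorem Lam_apply (h : Ω → ℝ) {C : ℝ} (hh : Bd h C) (f : Lp ℝ 1 μ) :
    Lam μ h hh f = ∫ x, h x * f x ∂μ := rfl

theorem Lam_norm (h : Ω → ℝ) {C : ℝ} (hh : Bd h C) (hC : 0 ≤ C) : ‖Lam μ h hh‖ ≤ C :=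
  LinearMap.mkContinuous_norm_le _ hC _

variable [IsProbabilityMeasure μ]

/-- the inclusion of `L_2` in `L_1` -/
noncomputable def Jmap : Lp ℝ 2 μ →L[ℝ] Lp ℝ 1 μ :=
  LinearMap.mkContinuous
    { toFun := fun f => ((Lp.memLp f).mono_exponent one_le_two).toLp f
      map_add' := by
        intro f g
        rw [← MemLp.toLp_add]
        apply MemLp.toLp_congr
        exact Lp.coeFn_add f g
      map_smul' := by
        intro c f
        simp only [RingHom.id_apply]
        rw [← MemLp.toLp_const_smul]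
        apply MemLp.toLp_congr
        exact Lp.coeFn_smul c f } 1
    (by
      intro f
      simp only [LinearMap.coe_mk, AddHom.coe_mk, one_mul]
      rw [Lp.norm_toLp, Lp.norm_def]
      exact ENNReal.toReal_mono (Lp.eLpNorm_ne_top f)
        (eLpNorm_le_eLpNorm_of_exponent_le one_le_two (Lp.aestronglyMeasurable f)))

theorem Jmap_indicator {s : Set Ω} (hs : MeasurableSet s) :
    Jmap μ (indicatorConstLp 2 hs (measure_ne_top μ s) (1 : ℝ))
      = indicatorConstLp 1 hs (measure_ne_top μ s) (1 : ℝ) := by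
  apply Lp.ext
  have h1 : (Jmap μ (indicatorConstLp 2 hs (measure_ne_top μ s) (1 : ℝ)) : Ω → ℝ) =ᵐ[μ]
      indicatorConstLp 2 hs (measure_ne_top μ s) (1 : ℝ) :=
    MemLp.coeFn_toLp ((Lp.memLp (indicatorConstLp 2 hs (measure_ne_top μ s) (1 : ℝ))).mono_exponent
      one_le_two)
  refine h1.trans ?_
  exact indicatorConstLp_coeFn.trans indicatorConstLp_coeFn.symm

theorem Lam_indicator (h : Ω → ℝ) {C : ℝ} (hh : Bd h C) {s : Set Ω} (hs : MeasurableSet s)
    (c : ℝ) : Lam μ h hh (indicatorConstLp 1 hs (measure_ne_top μ s) c) = c * ∫ x in s, h x ∂μ := by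
  rw [Lam_apply, ← integral_indicator hs, ← integral_const_mul]
  apply integral_congr_ae
  filter_upwards [indicatorConstLp_coeFn (p := 1) (hs := hs) (hμs := measure_ne_top μ s) (c := c)]
    with x hx
  rw [hx]
  by_cases hxs : x ∈ s
  · simp [hxs, mul_comm]
  · simp [hxs]

theorem Bd.integrable {h : Ω → ℝ} {C : ℝ} (hh : Bd h C) : Integrable h μ :=
  Integrable.of_bound hh.1.aestronglyMeasurable C
    (Eventually.of_forall fun x => by rw [Real.norm_eq_abs]; exact hh.2 x)

theorem ae_unique {h h' : Ω → ℝ} {C C' : ℝ} (hh : Bd h C) (hh' : Bd h' C')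
    (he : Lam μ h hh = Lam μ h' hh') : h =ᵐ[μ] h' := by
  refine Integrable.ae_eq_of_forall_setIntegral_eq _ _ (hh.integrable μ) (hh'.integrable μ) ?_
  intro s hs _
  have := congrArg (fun T => T (indicatorConstLp 1 hs (measure_ne_top μ s) (1 : ℝ))) he
  simp only [Lam_indicator, one_mul] at this
  exact this

theorem exists_rep (φ : StrongDual ℝ (Lp ℝ 1 μ)) :
    ∃ (g : Ω → ℝ) (hg : Bd g ‖φ‖), φ = Lam μ g hg := by
  set g0 : Lp ℝ 2 μ := (InnerProductSpace.toDual ℝ (Lp ℝ 2 μ)).symm (φ.comp (Jmap μ)) with hg0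
  have hinner : ∀ f : Lp ℝ 2 μ, inner ℝ g0 f = φ (Jmap μ f) := by
    intro f
    rw [hg0, InnerProductSpace.toDual_symm_apply]
    rfl
  have hset : ∀ s : Set Ω, ∀ hs : MeasurableSet s,
      φ (indicatorConstLp 1 hs (measure_ne_top μ s) (1 : ℝ)) = ∫ x in s, g0 x ∂μ := by
    intro s hs
    rw [← Jmap_indicator, ← hinner, real_inner_comm, L2.inner_indicatorConstLp_one]
  have hg0i : Integrable g0 μ := (Lp.memLp g0).integrable one_le_two
  have hbd : ∀ s : Set Ω, MeasurableSet s → |∫ x in s, g0 x ∂μ| ≤ ‖φ‖ * (μ s).toReal := by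
    intro s hs
    rw [← hset s hs, ← Real.norm_eq_abs]
    refine (φ.le_opNorm _).trans (le_of_eq ?_)
    rw [norm_indicatorConstLp one_ne_zero ENNReal.one_ne_top]
    simp [Measure.real]
  have hup : (g0 : Ω → ℝ) ≤ᵐ[μ] fun _ => ‖φ‖ := by
    refine ae_le_of_forall_setIntegral_le hg0i (integrable_const _) fun s hs _ => ?_
    rw [setIntegral_const, smul_eq_mul, mul_comm]
    exact (le_abs_self _).trans (hbd s hs)
  have hlo : (fun _ => -‖φ‖) ≤ᵐ[μ] (g0 : Ω → ℝ) := by
    refine ae_le_of_forall_setIntegral_le (integrable_const _) hg0i fun s hs _ => ?_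
    rw [setIntegral_const, smul_eq_mul]
    have h1 := (neg_abs_le (∫ x in s, g0 x ∂μ))
    have h2 := hbd s hs
    simp only [Measure.real] at *
    linarith
  set g : Ω → ℝ := fun x => max (-‖φ‖) (min ‖φ‖ (g0 x)) with hg
  have hgm : Measurable g :=
    measurable_const.max (measurable_const.min (Lp.stronglyMeasurable g0).measurable)
  have hgb : Bd g ‖φ‖ := by
    refine ⟨hgm, fun x => ?_⟩
    rw [abs_le]
    have := norm_nonneg φ
    exact ⟨le_max_left _ _, max_le (by linarith) (min_le_left _ _)⟩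
  have hgg0 : g =ᵐ[μ] g0 := by
    filter_upwards [hup, hlo] with x h1 h2
    rw [hg]
    simp only
    rw [min_eq_right h1, max_eq_right h2]
  refine ⟨g, hgb, ?_⟩
  ext f
  refine Lp.induction (p := 1) ENNReal.one_ne_top (motive := fun f => φ f = Lam μ g hgb f) ?_ ?_ ?_ f
  · intro c s hs hμs
    rw [Lp.simpleFunc.coe_indicatorConst, Lam_indicator μ g hgb hs c]
    have h1 : indicatorConstLp 1 hs hμs.ne c
        = c • indicatorConstLp 1 hs (measure_ne_top μ s) (1 : ℝ) := by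
      apply Lp.ext
      refine indicatorConstLp_coeFn.trans ?_
      filter_upwards [Lp.coeFn_smul c (indicatorConstLp 1 hs (measure_ne_top μ s) (1 : ℝ)),
        indicatorConstLp_coeFn (p := 1) (hs := hs) (hμs := measure_ne_top μ s) (c := (1 : ℝ))]
        with x h1 h2
      rw [h1, Pi.smul_apply, h2]
      by_cases hxs : x ∈ s <;> simp [hxs]
    rw [h1, map_smul, hset s hs, smul_eq_mul]
    congr 1
    exact integral_congr_ae (ae_restrict_of_ae hgg0.symm)
  · intro u v hu hv _ h1 h2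
    rw [map_add, map_add, h1, h2]
  · exact isClosed_eq φ.continuous (Lam μ g hgb).continuous

/-- the bounded function representing a functional on `L_1` -/
noncomputable def rep (φ : StrongDual ℝ (Lp ℝ 1 μ)) : Ω → ℝ := (exists_rep μ φ).choose

theorem rep_bd (φ : StrongDual ℝ (Lp ℝ 1 μ)) : Bd (rep μ φ) ‖φ‖ := (exists_rep μ φ).choose_spec.choose

theorem rep_spec (φ : StrongDual ℝ (Lp ℝ 1 μ)) : φ = Lam μ (rep μ φ) (rep_bd μ φ) :=
  (exists_rep μ φ).choose_spec.choose_spec

variable (u : Ultrafilter Ω)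

theorem exists_lim {h : Ω → ℝ} {C : ℝ} (hh : Bd h C) :
    ∃ c ∈ Icc (-C) C, Tendsto h u (𝓝 c) := by
  have h1 : (u.map h : Filter ℝ) ≤ 𝓟 (Icc (-C) C) := by
    rw [le_principal_iff, Ultrafilter.mem_coe, Ultrafilter.mem_map]
    exact Filter.univ_mem' fun x => abs_le.1 (hh.2 x)
  exact isCompact_Icc.ultrafilter_le_nhds (u.map h) h1

theorem tendsto_rep (φ : StrongDual ℝ (Lp ℝ 1 μ)) :
    Tendsto (rep μ φ) u (𝓝 (limUnder (u : Filter Ω) (rep μ φ))) := by
  obtain ⟨c, _, hc⟩ := exists_lim u (rep_bd μ φ)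
  rwa [hc.limUnder_eq]

theorem abs_lim_rep_le (φ : StrongDual ℝ (Lp ℝ 1 μ)) :
    |limUnder (u : Filter Ω) (rep μ φ)| ≤ ‖φ‖ := by
  obtain ⟨c, hc', hc⟩ := exists_lim u (rep_bd μ φ)
  rw [hc.limUnder_eq]
  exact abs_le.2 hc'

variable {μ} in
/-- if a bounded function represents `φ`, then it has the same limit along the ultrafilter -/
theorem lim_of_rep (hu : (u : Filter Ω) ≤ ae μ) (φ : StrongDual ℝ (Lp ℝ 1 μ)) {h : Ω → ℝ} {C : ℝ}
    (hh : Bd h C) (hφ : φ = Lam μ h hh) {c : ℝ} (hc : Tendsto h u (𝓝 c)) :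
    limUnder (u : Filter Ω) (rep μ φ) = c := by
  have h1 : rep μ φ =ᵐ[μ] h := ae_unique μ (rep_bd μ φ) hh ((rep_spec μ φ).symm.trans hφ)
  have h2 : rep μ φ =ᶠ[u] h := h1.filter_mono hu
  exact (hc.congr' h2.symm).limUnder_eq

theorem Bd.add {h h' : Ω → ℝ} {C C' : ℝ} (hh : Bd h C) (hh' : Bd h' C') :
    Bd (fun x => h x + h' x) (C + C') :=
  ⟨hh.1.add hh'.1, fun x => (abs_add_le _ _).trans (add_le_add (hh.2 x) (hh'.2 x))⟩

theorem Bd.smul {h : Ω → ℝ} {C : ℝ} (hh : Bd h C) (c : ℝ) :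
    Bd (fun x => c * h x) (|c| * C) :=
  ⟨hh.1.const_mul c, fun x => by
    rw [abs_mul]
    exact mul_le_mul_of_nonneg_left (hh.2 x) (abs_nonneg c)⟩

theorem Lam_add {h h' : Ω → ℝ} {C C' : ℝ} (hh : Bd h C) (hh' : Bd h' C') :
    Lam μ (fun x => h x + h' x) (hh.add hh') = Lam μ h hh + Lam μ h' hh' := by
  ext f
  rw [_root_.add_apply, Lam_apply, Lam_apply, Lam_apply,
    ← integral_add (hh.integrable_mul μ f) (hh'.integrable_mul μ f)]
  exact integral_congr_ae (Eventually.of_forall fun x => by ring)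

theorem Lam_smul {h : Ω → ℝ} {C : ℝ} (hh : Bd h C) (c : ℝ) :
    Lam μ (fun x => c * h x) (hh.smul c) = c • Lam μ h hh := by
  ext f
  rw [_root_.smul_apply, Lam_apply, Lam_apply, smul_eq_mul, ← integral_const_mul]
  exact integral_congr_ae (Eventually.of_forall fun x => by ring)

theorem Lam_congr {h h' : Ω → ℝ} {C C' : ℝ} (hh : Bd h C) (hh' : Bd h' C') (he : ∀ x, h x = h' x) :
    Lam μ h hh = Lam μ h' hh' := by
  have : h = h' := funext he
  subst this
  rfl

variable {μ} in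
/-- The atom of the bidual of `L_1` given by an ultrafilter that contains all conull sets. -/
noncomputable def atom (hu : (u : Filter Ω) ≤ ae μ) : StrongDual ℝ (StrongDual ℝ (Lp ℝ 1 μ)) :=
  LinearMap.mkContinuous
    { toFun := fun φ => limUnder (u : Filter Ω) (rep μ φ)
      map_add' := by
        intro φ ψ
        refine lim_of_rep u hu (φ + ψ) ((rep_bd μ φ).add (rep_bd μ ψ)) ?_
          ((tendsto_rep μ u φ).add (tendsto_rep μ u ψ))
        rw [Lam_add μ (rep_bd μ φ) (rep_bd μ ψ), ← rep_spec, ← rep_spec]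
      map_smul' := by
        intro c φ
        simp only [RingHom.id_apply, smul_eq_mul]
        refine lim_of_rep u hu (c • φ) ((rep_bd μ φ).smul c) ?_
          ((tendsto_rep μ u φ).const_mul c)
        rw [Lam_smul μ (rep_bd μ φ), ← rep_spec] } 1
    (by
      intro φ
      simp only [LinearMap.coe_mk, AddHom.coe_mk, one_mul]
      exact abs_lim_rep_le μ u φ)

theorem atom_norm_le (hu : (u : Filter Ω) ≤ ae μ) : ‖atom u hu‖ ≤ 1 :=
  LinearMap.mkContinuous_norm_le _ zero_le_one _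

theorem atom_apply (hu : (u : Filter Ω) ≤ ae μ) (φ : StrongDual ℝ (Lp ℝ 1 μ)) :
    atom u hu φ = limUnder (u : Filter Ω) (rep μ φ) := rfl

theorem atom_of_rep (hu : (u : Filter Ω) ≤ ae μ) (φ : StrongDual ℝ (Lp ℝ 1 μ)) {h : Ω → ℝ} {C : ℝ}
    (hh : Bd h C) (hφ : φ = Lam μ h hh) {c : ℝ} (hc : Tendsto h u (𝓝 c)) :
    atom u hu φ = c := lim_of_rep u hu φ hh hφ hc

section two

variable (u v : Ultrafilter Ω) (hu : (u : Filter Ω) ≤ ae μ) (hv : (v : Filter Ω) ≤ ae μ)
  (S : Set Ω) (hS : MeasurableSet S) (huS : S ∈ u) (hvS : Sᶜ ∈ v)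

include hS huS hvS in
/-- A functional in the unit ball can be changed near the two atoms so that both values become
`1`, at the cost of a controlled error. -/
theorem exists_modify (φ : StrongDual ℝ (Lp ℝ 1 μ)) (hφ : ‖φ‖ ≤ 1) (ε : ℝ) (hε : 0 < ε) :
    ∃ φ' : StrongDual ℝ (Lp ℝ 1 μ), ‖φ'‖ ≤ 1 ∧ atom u hu φ' = 1 ∧ atom v hv φ' = 1 ∧
      ∃ ρ₁ ρ₂ : StrongDual ℝ (Lp ℝ 1 μ), φ' = φ + (ρ₁ + ρ₂) ∧
        ‖ρ₁‖ ≤ 1 - atom u hu φ + ε ∧ ‖ρ₂‖ ≤ 1 - atom v hv φ + ε := by
  classical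
  set g := rep μ φ with hg
  have hgb : Bd g ‖φ‖ := rep_bd μ φ
  have hg1 : ∀ x, g x ≤ 1 := fun x => (abs_le.1 (hgb.2 x)).2.trans hφ
  have hg2 : ∀ x, -1 ≤ g x := fun x => by
    have := (abs_le.1 (hgb.2 x)).1
    linarith
  set c₁ := atom u hu φ with hc₁
  set c₂ := atom v hv φ with hc₂
  have ht1 : Tendsto g u (𝓝 c₁) := tendsto_rep μ u φ
  have ht2 : Tendsto g v (𝓝 c₂) := tendsto_rep μ v φ
  set A₁ : Set Ω := S ∩ {x | c₁ - ε < g x} with hA₁
  set A₂ : Set Ω := Sᶜ ∩ {x | c₂ - ε < g x} with hA₂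
  have hA₁m : MeasurableSet A₁ := hS.inter (measurableSet_lt measurable_const hgb.1)
  have hA₂m : MeasurableSet A₂ := hS.compl.inter (measurableSet_lt measurable_const hgb.1)
  have hA₁u : A₁ ∈ u := Filter.inter_mem huS (ht1.eventually (lt_mem_nhds (by linarith)))
  have hA₂v : A₂ ∈ v := Filter.inter_mem hvS (ht2.eventually (lt_mem_nhds (by linarith)))
  have hc₁1 : c₁ ≤ 1 := by
    have := abs_lim_rep_le μ u φ
    exact (abs_le.1 this).2.trans hφ
  have hc₂1 : c₂ ≤ 1 := by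
    have := abs_lim_rep_le μ v φ
    exact (abs_le.1 this).2.trans hφ
  set r₁ : Ω → ℝ := A₁.indicator fun x => 1 - g x with hr₁
  set r₂ : Ω → ℝ := A₂.indicator fun x => 1 - g x with hr₂
  have hr₁b : Bd r₁ (1 - c₁ + ε) := by
    refine ⟨(measurable_const.sub hgb.1).indicator hA₁m, fun x => ?_⟩
    by_cases hx : x ∈ A₁
    · rw [hr₁, indicator_of_mem hx, abs_of_nonneg (by linarith [hg1 x])]
      have := hx.2
      simp only [Set.mem_ofPred_eq] at this
      linarith
    · rw [hr₁, indicator_of_notMem hx, abs_zero]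
      linarith
  have hr₂b : Bd r₂ (1 - c₂ + ε) := by
    refine ⟨(measurable_const.sub hgb.1).indicator hA₂m, fun x => ?_⟩
    by_cases hx : x ∈ A₂
    · rw [hr₂, indicator_of_mem hx, abs_of_nonneg (by linarith [hg1 x])]
      have := hx.2
      simp only [Set.mem_ofPred_eq] at this
      linarith
    · rw [hr₂, indicator_of_notMem hx, abs_zero]
      linarith
  have hdisj : ∀ x, x ∈ A₁ → x ∉ A₂ := fun x h1 h2 => h2.1 h1.1
  set g' : Ω → ℝ := fun x => g x + (r₁ x + r₂ x) with hg'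
  have hval1 : ∀ x ∈ A₁, g' x = 1 := by
    intro x hx
    rw [hg']
    simp only [hr₁, hr₂]
    rw [indicator_of_mem hx, indicator_of_notMem (hdisj x hx)]
    ring
  have hval2 : ∀ x ∈ A₂, g' x = 1 := by
    intro x hx
    rw [hg']
    simp only [hr₁, hr₂]
    rw [indicator_of_mem hx, indicator_of_notMem (fun h => hdisj x h hx)]
    ring
  have hval3 : ∀ x, x ∉ A₁ → x ∉ A₂ → g' x = g x := by
    intro x h1 h2
    rw [hg']
    simp only [hr₁, hr₂]
    rw [indicator_of_notMem h1, indicator_of_notMem h2]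
    ring
  have hg'b : Bd g' 1 := by
    refine ⟨(hgb.add (hr₁b.add hr₂b)).1, fun x => ?_⟩
    by_cases h1 : x ∈ A₁
    · rw [hval1 x h1, abs_one]
    · by_cases h2 : x ∈ A₂
      · rw [hval2 x h2, abs_one]
      · rw [hval3 x h1 h2, abs_le]
        exact ⟨hg2 x, hg1 x⟩
  refine ⟨Lam μ g' hg'b, Lam_norm μ g' hg'b zero_le_one, ?_, ?_, Lam μ r₁ hr₁b, Lam μ r₂ hr₂b,
    ?_, Lam_norm μ r₁ hr₁b (by linarith), Lam_norm μ r₂ hr₂b (by linarith)⟩
  · refine atom_of_rep μ u hu _ hg'b rfl ?_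
    have : g' =ᶠ[u] fun _ => (1 : ℝ) := Filter.mem_of_superset hA₁u fun x hx => hval1 x hx
    exact tendsto_const_nhds.congr' this.symm
  · refine atom_of_rep μ v hv _ hg'b rfl ?_
    have : g' =ᶠ[v] fun _ => (1 : ℝ) := Filter.mem_of_superset hA₂v fun x hx => hval2 x hx
    exact tendsto_const_nhds.congr' this.symm
  · conv_rhs => rw [rep_spec μ φ]
    rw [← Lam_add, ← Lam_add]
    exact Lam_congr μ hg'b _ fun x => rfl

include hS huS hvS in
theorem norm_swap_le (z : StrongDual ℝ (StrongDual ℝ (Lp ℝ 1 μ))) (α₁ α₂ β₁ β₂ : ℝ)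
    (h1 : ‖z‖ ≤ α₁) (h2 : ‖z‖ ≤ α₂) (hsum : α₁ + α₂ = β₁ + β₂) :
    ‖(α₁ • atom u hu + α₂ • atom v hv) + z‖ ≤ ‖(β₁ • atom u hu + β₂ • atom v hv) + z‖ := by
  have key : ∀ φ : StrongDual ℝ (Lp ℝ 1 μ), ‖φ‖ ≤ 1 →
      ((α₁ • atom u hu + α₂ • atom v hv) + z) φ ≤
        ‖(β₁ • atom u hu + β₂ • atom v hv) + z‖ := by
    intro φ hφ
    refine le_of_forall_pos_le_add fun δ hδ => ?_
    set ε := δ / (2 * ‖z‖ + 1) with hε
    have hz := norm_nonneg z
    have hεpos : 0 < ε := by positivity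
    obtain ⟨φ', hφ', ha1, ha2, ρ₁, ρ₂, hsumφ, hρ₁, hρ₂⟩ :=
      exists_modify μ u v hu hv S hS huS hvS φ hφ ε hεpos
    have e1 : ((β₁ • atom u hu + β₂ • atom v hv) + z) φ' ≤
        ‖(β₁ • atom u hu + β₂ • atom v hv) + z‖ := by
      refine (le_abs_self _).trans ?_
      rw [← Real.norm_eq_abs]
      refine (ContinuousLinearMap.le_opNorm _ _).trans ?_
      exact mul_le_of_le_one_right (norm_nonneg _) hφ'
    have e2 : ((β₁ • atom u hu + β₂ • atom v hv) + z) φ' = β₁ + β₂ + z φ' := by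
      simp [ha1, ha2]
    have e3 : ((α₁ • atom u hu + α₂ • atom v hv) + z) φ
        = α₁ * atom u hu φ + α₂ * atom v hv φ + z φ := by simp
    have e4 : z φ' = z φ + z ρ₁ + z ρ₂ := by
      rw [hsumφ, map_add, map_add]
      ring
    have hc1 : atom u hu φ ≤ 1 := (abs_le.1 (abs_lim_rep_le μ u φ)).2.trans hφ
    have hc2 : atom v hv φ ≤ 1 := (abs_le.1 (abs_lim_rep_le μ v φ)).2.trans hφ
    have e5 : -(‖z‖ * (1 - atom u hu φ + ε)) ≤ z ρ₁ := by
      have : |z ρ₁| ≤ ‖z‖ * (1 - atom u hu φ + ε) := by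
        rw [← Real.norm_eq_abs]
        exact (z.le_opNorm ρ₁).trans (mul_le_mul_of_nonneg_left hρ₁ hz)
      exact (abs_le.1 this).1
    have e6 : -(‖z‖ * (1 - atom v hv φ + ε)) ≤ z ρ₂ := by
      have : |z ρ₂| ≤ ‖z‖ * (1 - atom v hv φ + ε) := by
        rw [← Real.norm_eq_abs]
        exact (z.le_opNorm ρ₂).trans (mul_le_mul_of_nonneg_left hρ₂ hz)
      exact (abs_le.1 this).1
    have e7 : 2 * ‖z‖ * ε ≤ δ := by
      rw [hε, mul_div_assoc', div_le_iff₀ (by positivity)]
      nlinarith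
    have e8 : 0 ≤ (α₁ - ‖z‖) * (1 - atom u hu φ) := mul_nonneg (by linarith) (by linarith)
    have e9 : 0 ≤ (α₂ - ‖z‖) * (1 - atom v hv φ) := mul_nonneg (by linarith) (by linarith)
    rw [e3]
    nlinarith
  refine ContinuousLinearMap.opNorm_le_of_unit_norm (ContinuousLinearMap.opNorm_nonneg _) fun φ hφ => ?_
  rw [Real.norm_eq_abs, abs_le]
  constructor
  · have := key (-φ) (by rw [norm_neg]; exact hφ.le)
    rw [map_neg] at this
    linarith
  · exact key φ hφ.le

include hu hv hS huS hvS in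
theorem modulus_bidual_eq_zero (d a : ℝ) (hd : 0 < d) (hd2 : d < 2) (ha : a ≤ 1 / 2 - d / 4) :
    modulus (StrongDual ℝ (StrongDual ℝ (Lp ℝ 1 μ))) d a = 0 := by
  classical
  set x := (1 / 2 + d / 4) • atom u hu + (1 / 2 - d / 4) • atom v hv with hx
  set y := (1 / 2 - d / 4) • atom u hu + (1 / 2 + d / 4) • atom v hv with hy
  have h1u : ‖atom u hu‖ ≤ 1 := atom_norm_le μ u hu
  have h1v : ‖atom v hv‖ ≤ 1 := atom_norm_le μ v hv
  have hone : Bd (fun _ : Ω => (1 : ℝ)) 1 := ⟨measurable_const, fun x => by simp⟩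
  have hI : ‖Lam μ (fun _ => (1 : ℝ)) hone‖ ≤ 1 := Lam_norm μ _ hone zero_le_one
  have hIu : atom u hu (Lam μ (fun _ => (1 : ℝ)) hone) = 1 :=
    atom_of_rep μ u hu _ hone rfl tendsto_const_nhds
  have hIv : atom v hv (Lam μ (fun _ => (1 : ℝ)) hone) = 1 :=
    atom_of_rep μ v hv _ hone rfl tendsto_const_nhds
  have hnorm : ∀ s t : ℝ, 0 ≤ s → 0 ≤ t → s + t = 1 →
      ‖s • atom u hu + t • atom v hv‖ = 1 := by
    intro s t hs ht hst
    apply le_antisymm
    · refine ContinuousLinearMap.opNorm_le_bound _ zero_le_one fun φ => ?_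
      have e1 : |atom u hu φ| ≤ ‖φ‖ := abs_lim_rep_le μ u φ
      have e2 : |atom v hv φ| ≤ ‖φ‖ := abs_lim_rep_le μ v φ
      have e3 : (s • atom u hu + t • atom v hv) φ = s * atom u hu φ + t * atom v hv φ := rfl
      rw [e3, Real.norm_eq_abs]
      refine (abs_add_le _ _).trans ?_
      rw [abs_mul, abs_mul, abs_of_nonneg hs, abs_of_nonneg ht]
      have e4 : s * |atom u hu φ| + t * |atom v hv φ| ≤ s * ‖φ‖ + t * ‖φ‖ :=
        add_le_add (mul_le_mul_of_nonneg_left e1 hs) (mul_le_mul_of_nonneg_left e2 ht)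
      have e5 : s * ‖φ‖ + t * ‖φ‖ = 1 * ‖φ‖ := by rw [← add_mul, hst]
      exact e4.trans e5.le
    · have h := (s • atom u hu + t • atom v hv).le_opNorm (Lam μ (fun _ => (1 : ℝ)) hone)
      have h2 : (s • atom u hu + t • atom v hv) (Lam μ (fun _ => (1 : ℝ)) hone) = 1 := by
        simp [hIu, hIv, hst]
      rw [h2, norm_one] at h
      nlinarith [norm_nonneg (s • atom u hu + t • atom v hv)]
  have hxn : ‖x‖ = 1 := hnorm _ _ (by linarith) (by linarith) (by ring)
  have hyn : ‖y‖ = 1 := hnorm _ _ (by linarith) (by linarith) (by ring)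
  have hxy : d ≤ ‖x - y‖ := by
    set h : Ω → ℝ := fun ω => if ω ∈ S then 1 else -1 with hh
    have hb : Bd h 1 := by
      refine ⟨Measurable.ite hS measurable_const measurable_const, fun ω => ?_⟩
      by_cases hω : ω ∈ S <;> simp [hh, hω]
    have hu1 : atom u hu (Lam μ h hb) = 1 := by
      refine atom_of_rep μ u hu _ hb rfl ?_
      have : h =ᶠ[u] fun _ => (1 : ℝ) :=
        Filter.mem_of_superset huS fun ω hω => by
          change h ω = 1
          simp only [hh]
          exact if_pos hω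
      exact tendsto_const_nhds.congr' this.symm
    have hv1 : atom v hv (Lam μ h hb) = -1 := by
      refine atom_of_rep μ v hv _ hb rfl ?_
      have : h =ᶠ[v] fun _ => (-1 : ℝ) :=
        Filter.mem_of_superset hvS fun ω hω => by
          change h ω = -1
          simp only [hh]
          exact if_neg hω
      exact tendsto_const_nhds.congr' this.symm
    have h1 := (x - y).le_opNorm (Lam μ h hb)
    have h2 : (x - y) (Lam μ h hb) = d := by
      simp only [hx, hy, _root_.sub_apply, _root_.add_apply,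
        _root_.smul_apply, hu1, hv1, smul_eq_mul]
      ring
    have h3 : ‖Lam μ h hb‖ ≤ 1 := Lam_norm μ _ hb zero_le_one
    rw [h2, Real.norm_of_nonneg hd.le] at h1
    nlinarith [norm_nonneg (x - y)]
  have hU : U x y a = 0 := by
    unfold U
    rw [ENNReal.iSup_eq_zero]
    intro z
    rw [ENNReal.iSup_eq_zero]
    intro hz
    have h1 : ‖x + z‖ ≤ ‖y + z‖ :=
      norm_swap_le μ u v hu hv S hS huS hvS z _ _ _ _ (by linarith) (by linarith) (by ring)
    have h2 : ‖y + z‖ ≤ ‖x + z‖ :=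
      norm_swap_le μ u v hu hv S hS huS hvS z _ _ _ _ (by linarith) (by linarith) (by ring)
    rw [le_antisymm h1 h2]
    simp
  apply le_antisymm _ zero_le
  unfold modulus
  refine (iInf_le_of_le x (iInf_le_of_le y (iInf_le_of_le ⟨hxn, hyn, hxy⟩ ?_)))
  exact hU.le

end two

end Q195.PropS
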