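import Mathlib
import Pool.Agent.Q195.PropS.Defs

/-!
# `L_1[0,1]` has the uniform property (S)
-/

set_option autoImplicit false

open MeasureTheory Set
open scoped ENNReal

namespace Q195.PropS

/-- Lebesgue measure on `[0,1]`, as a measure on the line -/
noncomputable abbrev mu01 : Measure ℝ := volume.restrict (Icc (0 : ℝ) 1)

instance : IsProbabilityMeasure mu01 := ⟨by simp [mu01]⟩

theorem integral_mu01 (h : ℝ → ℝ) :
    ∫ t in Ioc (0 : ℝ) 1, h t ∂mu01 = ∫ t, h t ∂mu01 := by
  rw [Measure.restrict_restrict measurableSet_Ioc, inter_eq_left.2 Ioc_subset_Icc_self,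
    integral_Icc_eq_integral_Ioc]

/-- a set with small mass of `f` and a fixed proportion of the mass of `g` -/
theorem exists_piece (f g : ℝ → ℝ) (hf : Integrable f mu01) (hg : Integrable g mu01)
    (hf0 : ∀ t, 0 ≤ f t) (N : ℕ) (hN : 0 < N) (F d : ℝ) (hF0 : 0 < F)
    (hF : ∫ t, f t ∂mu01 = F) (hd : d ≤ ∫ t, g t ∂mu01) :
    ∃ A : Set ℝ, MeasurableSet A ∧ ∫ t in A, f t ∂mu01 ≤ F / N ∧ d / N ≤ ∫ t in A, g t ∂mu01 := by
  classical
  have hN' : (0 : ℝ) < N := by exact_mod_cast hN
  set P : ℝ → ℝ := fun t => ∫ s in (0 : ℝ)..t, f s ∂mu01 with hP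
  have hPc : Continuous P := intervalIntegral.continuous_primitive (fun a b => hf.intervalIntegrable) 0
  have hfi : ∀ a b : ℝ, IntervalIntegrable f mu01 a b := fun a b => hf.intervalIntegrable
  have hgi : ∀ a b : ℝ, IntervalIntegrable g mu01 a b := fun a b => hg.intervalIntegrable
  have hP0 : P 0 = 0 := by simp [hP]
  have hP1 : P 1 = F := by
    rw [hP]
    simp only
    rw [intervalIntegral.integral_of_le zero_le_one, integral_mu01, hF]
  have hPm : Monotone P := by
    intro a b hab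
    have : P b - P a = ∫ s in a..b, f s ∂mu01 := by
      rw [hP]
      exact intervalIntegral.integral_interval_sub_left (hfi _ _) (hfi _ _)
    have h2 : 0 ≤ ∫ s in a..b, f s ∂mu01 :=
      intervalIntegral.integral_nonneg_of_forall hab hf0
    linarith
  -- the points of subdivision
  have hpt : ∀ i : ℕ, ∃ t : ℝ, (i ≤ N → P t = F * i / N) ∧ (i = 0 → t = 0) ∧ (i = N → t = 1) := by
    intro i
    rcases Nat.eq_zero_or_pos i with h0 | h0
    · refine ⟨0, fun _ => by simp [h0, hP0], fun _ => rfl, fun h => ?_⟩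
      omega
    rcases eq_or_ne i N with h1 | h1
    · refine ⟨1, fun _ => ?_, fun h => by omega, fun _ => rfl⟩
      rw [hP1, h1]
      field_simp
    by_cases h2 : i ≤ N
    · have : F * i / N ∈ Icc (P 0) (P 1) := by
        rw [hP0, hP1]
        have h2' : (i : ℝ) ≤ N := by exact_mod_cast h2
        constructor
        · positivity
        · rw [div_le_iff₀ hN']
          exact mul_le_mul_of_nonneg_left h2' hF0.le
      obtain ⟨t, ht, hPt⟩ := intermediate_value_Icc zero_le_one hPc.continuousOn this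
      exact ⟨t, fun _ => hPt, fun h => by omega, fun h => absurd h h1⟩
    · exact ⟨0, fun h => absurd h h2, fun _ => rfl, fun h => absurd h h1⟩
  choose τ hτ using hpt
  have hτlt : ∀ i < N, τ i ≤ τ (i + 1) := by
    intro i hi
    by_contra hlt
    have h1 := hPm (le_of_not_ge hlt)
    rw [(hτ i).1 hi.le, (hτ (i + 1)).1 hi] at h1
    rw [div_le_div_iff_of_pos_right hN'] at h1
    push_cast at h1
    nlinarith
  have hsum : ∑ k ∈ Finset.range N, ∫ x in τ k..τ (k + 1), g x ∂mu01 = ∫ t, g t ∂mu01 := by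
    rw [intervalIntegral.sum_integral_adjacent_intervals (fun k _ => hgi _ _), (hτ 0).2.1 rfl,
      (hτ N).2.2 rfl, intervalIntegral.integral_of_le zero_le_one, integral_mu01]
  obtain ⟨k, hk, hk2⟩ : ∃ k ∈ Finset.range N, d / N ≤ ∫ x in τ k..τ (k + 1), g x ∂mu01 := by
    by_contra hcon
    push Not at hcon
    have h1 : ∑ k ∈ Finset.range N, ∫ x in τ k..τ (k + 1), g x ∂mu01
        < ∑ k ∈ Finset.range N, d / N := by
      apply Finset.sum_lt_sum_of_nonempty
      · simpa using hN.ne'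
      · exact hcon
    rw [hsum, Finset.sum_const, Finset.card_range, nsmul_eq_mul] at h1
    rw [mul_div_cancel₀ _ hN'.ne'] at h1
    linarith
  rw [Finset.mem_range] at hk
  refine ⟨Ioc (τ k) (τ (k + 1)), measurableSet_Ioc, ?_, ?_⟩
  · have h1 : P (τ (k + 1)) - P (τ k) = ∫ s in τ k..τ (k + 1), f s ∂mu01 := by
      rw [hP]
      exact intervalIntegral.integral_interval_sub_left (hfi _ _) (hfi _ _)
    rw [intervalIntegral.integral_of_le (hτlt k hk)] at h1
    rw [← h1, (hτ k).1 hk.le, (hτ (k + 1)).1 hk]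
    push_cast
    apply le_of_eq
    field_simp
    ring
  · rw [intervalIntegral.integral_of_le (hτlt k hk)] at hk2
    exact hk2

/-- the restriction of an integrable function to a measurable set -/
noncomputable def cut (x : Lp ℝ 1 mu01) (A : Set ℝ) (hA : MeasurableSet A) : Lp ℝ 1 mu01 :=
  ((Lp.memLp x).indicator hA).toLp (A.indicator x)

theorem cut_coe (x : Lp ℝ 1 mu01) (A : Set ℝ) (hA : MeasurableSet A) :
    (cut x A hA : ℝ → ℝ) =ᵐ[mu01] A.indicator x := MemLp.coeFn_toLp _

theorem norm_lone (x : Lp ℝ 1 mu01) : ‖x‖ = ∫ t, |x t| ∂mu01 := by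
  rw [L1.norm_eq_integral_norm]
  rfl

theorem norm_cut (x : Lp ℝ 1 mu01) (A : Set ℝ) (hA : MeasurableSet A) :
    ‖cut x A hA‖ = ∫ t in A, |x t| ∂mu01 := by
  rw [norm_lone, ← integral_indicator hA]
  apply integral_congr_ae
  filter_upwards [cut_coe x A hA] with t ht
  rw [ht]
  by_cases h : t ∈ A <;> simp [h]

/-- the two candidates -/
theorem key_sum (x y : Lp ℝ 1 mu01) (A : Set ℝ) (hA : MeasurableSet A) :
    (‖y + -cut x A hA‖ - ‖x + -cut x A hA‖) + (‖x + -cut y A hA‖ - ‖y + -cut y A hA‖)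
      = 2 * ∫ t in A, |x t - y t| ∂mu01 := by
  have hint : ∀ u v : Lp ℝ 1 mu01, Integrable (fun t => |(u + v : Lp ℝ 1 mu01) t|) mu01 :=
    fun u v => (L1.integrable_coeFn (u + v)).abs
  have hsub : ∀ u v u' v' : Lp ℝ 1 mu01,
      Integrable (fun t => |(u + v : Lp ℝ 1 mu01) t| - |(u' + v' : Lp ℝ 1 mu01) t|) mu01 :=
    fun u v u' v' => (hint u v).sub (hint u' v')
  rw [norm_lone, norm_lone, norm_lone, norm_lone, ← integral_sub (hint _ _) (hint _ _),
    ← integral_sub (hint _ _) (hint _ _), ← integral_add (hsub _ _ _ _) (hsub _ _ _ _),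
    ← integral_indicator hA, ← integral_const_mul]
  apply integral_congr_ae
  filter_upwards [cut_coe x A hA, cut_coe y A hA, Lp.coeFn_add y (-cut x A hA),
    Lp.coeFn_add x (-cut x A hA), Lp.coeFn_add x (-cut y A hA), Lp.coeFn_add y (-cut y A hA),
    Lp.coeFn_neg (cut x A hA), Lp.coeFn_neg (cut y A hA)] with t h1 h2 h3 h4 h5 h6 h7 h8
  rw [h3, h4, h5, h6]
  simp only [Pi.add_apply]
  rw [h7, h8]
  simp only [Pi.neg_apply]
  rw [h1, h2]
  by_cases h : t ∈ A
  · simp only [h, indicator_of_mem]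
    rw [add_neg_cancel, add_neg_cancel, abs_zero, abs_sub_comm (x t) (y t), ← sub_eq_add_neg,
      ← sub_eq_add_neg, abs_sub_comm (x t) (y t)]
    ring
  · simp only [h, not_false_eq_true, indicator_of_notMem]
    ring

theorem uniformS_lone : UniformS (Lp ℝ 1 mu01) := by
  intro d a hd hd2 ha
  obtain ⟨N, hN⟩ := exists_nat_gt (2 / a)
  have hN0 : (0 : ℝ) < N := lt_trans (by positivity) hN
  have hN0' : 0 < N := by exact_mod_cast hN0
  have hNa : 2 / (N : ℝ) ≤ a := by
    rw [div_le_iff₀ hN0]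
    rw [div_lt_iff₀ ha] at hN
    linarith
  refine lt_of_lt_of_le (b := ENNReal.ofReal (d / N)) (by rw [ENNReal.ofReal_pos]; positivity) ?_
  unfold modulus
  refine le_iInf fun x => le_iInf fun y => le_iInf fun h => ?_
  obtain ⟨hx, hy, hxy⟩ := h
  have hxi := (L1.integrable_coeFn x).abs
  have hyi := (L1.integrable_coeFn y).abs
  have hxyi : Integrable (fun t => |x t - y t|) mu01 :=
    ((L1.integrable_coeFn x).sub (L1.integrable_coeFn y)).abs
  have hnxy : ‖x - y‖ = ∫ t, |x t - y t| ∂mu01 := by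
    rw [norm_lone]
    apply integral_congr_ae
    filter_upwards [Lp.coeFn_sub x y] with t ht
    rw [ht]
    rfl
  obtain ⟨A, hA, h1, h2⟩ := exists_piece (fun t => |x t| + |y t|) (fun t => |x t - y t|)
    (hxi.add hyi) hxyi (fun t => by positivity) N hN0' 2 d (by norm_num)
    (by
      rw [integral_add hxi hyi, ← norm_lone, ← norm_lone, hx, hy]
      norm_num) (by rw [← hnxy]; exact hxy)
  have hcx : ‖cut x A hA‖ ≤ a := by
    rw [norm_cut]
    refine le_trans ?_ (h1.trans hNa)
    exact integral_mono hxi.integrableOn (hxi.add hyi).integrableOn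
      (fun t => by simp)
  have hcy : ‖cut y A hA‖ ≤ a := by
    rw [norm_cut]
    refine le_trans ?_ (h1.trans hNa)
    exact integral_mono hyi.integrableOn (hxi.add hyi).integrableOn
      (fun t => by simp)
  have hsum := key_sum x y A hA
  rcases le_total (∫ t in A, |x t - y t| ∂mu01) (‖y + -cut x A hA‖ - ‖x + -cut x A hA‖) with h | h
  · refine le_trans ?_ (le_iSup₂ (f := fun z (_ : ‖z‖ ≤ a) =>
      ENNReal.ofReal |‖x + z‖ - ‖y + z‖|) (-cut x A hA) (by rw [norm_neg]; exact hcx))
    apply ENNReal.ofReal_le_ofReal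
    rw [abs_sub_comm]
    exact le_trans (h2.trans h) (le_abs_self _)
  · refine le_trans ?_ (le_iSup₂ (f := fun z (_ : ‖z‖ ≤ a) =>
      ENNReal.ofReal |‖x + z‖ - ‖y + z‖|) (-cut y A hA) (by rw [norm_neg]; exact hcy))
    apply ENNReal.ofReal_le_ofReal
    refine le_trans (h2.trans ?_) (le_abs_self _)
    linarith

end Q195.PropS
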